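import Pool.Agent.H361R3.AL.Final

/-!
Automorphic loops of odd order: normal subloops which meet the centre of the group generated by
the `P x = L x (R x⁻¹)⁻¹` meet the middle nucleus.
-/

set_option autoImplicit false

namespace Pool.Agent.H687R3.ALG

open H361AL

variable {Q : Type*} [Loop Q] [Automorphic Q]

/-- the permutation `y ↦ x (y / x⁻¹)` -/
noncomputable def P (x : Q) : Equiv.Perm Q := L x * (R (iv x))⁻¹

theorem P_eq' (x : Q) : P x = s x * s 1 := (P_eq x).symm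

/-- normal subloops -/
structure IsNormalSubloop (M : Set Q) : Prop where
  one_mem : (1 : Q) ∈ M
  mul_mem : ∀ x ∈ M, ∀ y ∈ M, x * y ∈ M
  left_div : ∀ x ∈ M, ∀ y : Q, x * y ∈ M → y ∈ M
  right_div : ∀ x ∈ M, ∀ y : Q, y * x ∈ M → y ∈ M
  inn_mem : ∀ h ∈ Mlt Q, h 1 = 1 → ∀ x ∈ M, h x ∈ M

section
variable {M : Set Q} (hM : IsNormalSubloop M)
include hM

theorem iv_memM {a : Q} (ha : a ∈ M) : iv a ∈ M := by
  apply hM.left_div a ha
  rw [mul_iv]; exact hM.one_mem

theorem P_memM {a : Q} (ha : a ∈ M) {y : Q} (hy : y ∈ M) : P a y ∈ M := by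
  change a * ((R (iv a))⁻¹ y) ∈ M
  apply hM.mul_mem a ha
  apply hM.right_div (iv a) (iv_memM hM ha)
  have h : R (iv a) ((R (iv a))⁻¹ y) = y := (R (iv a)).apply_symm_apply y
  change (R (iv a))⁻¹ y * iv a = y at h
  rw [h]; exact hy

omit [Loop Q] [Automorphic Q] hM in
theorem pow_memM {g : Equiv.Perm Q} (hg : ∀ y ∈ M, g y ∈ M) (n : ℕ) {y : Q} (hy : y ∈ M) :
    (g ^ n) y ∈ M := by
  induction n with
  | zero => exact hy
  | succ n ih =>
    rw [pow_succ', Equiv.Perm.mul_apply]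
    exact hg _ ih

end

variable [Finite Q]

section
variable {M : Set Q} (hM : IsNormalSubloop M) (hodd : Odd (Nat.card Q)) {p : ℕ} (hp : Odd p)
include hM hodd hp

theorem pm_memM {v : V Q p} (hv : pm v 1 ∈ M) {y : Q} (hy : y ∈ M) : pm v y ∈ M := by
  obtain ⟨m, hm⟩ := hp
  have h1 : ∀ y ∈ M, (pm v * pm v) y ∈ M := by
    intro y hy
    rw [← s_pm hodd, ← P_eq']
    exact P_memM hM hv hy
  have h2 : pm v = (pm v * pm v) ^ (m + 1) := by
    have e : (pm v) ^ p = 1 := (pm_mem v).2.2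
    have : (pm v * pm v) ^ (m + 1) = (pm v) ^ (2 * m + 1) * pm v := by
      rw [← pow_two, ← pow_mul, ← pow_succ]
      congr 1
    have e' : (pm v) ^ (2 * m + 1) = (pm v) ^ p := congrArg (fun j => (pm v) ^ j) hm.symm
    rw [this, e', e, one_mul]
  rw [h2]
  exact pow_memM h1 _ hy

/-- the elements of `V` which lie in `M` -/
noncomputable def VM : AddSubgroup (V Q p) where
  carrier := {v | pm v 1 ∈ M}
  zero_mem' := by
    change pm (0 : V Q p) 1 ∈ M
    rw [pm_zero]; exact hM.one_mem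
  add_mem' := by
    intro v w hv hw
    change pm (v + w) 1 ∈ M
    rw [pm_add, Equiv.Perm.mul_apply]
    exact pm_memM hM hodd hp hv hw
  neg_mem' := by
    intro v hv
    change pm (-v) 1 ∈ M
    rw [← iv_pm hodd]
    exact iv_memM hM hv

theorem mem_VM {v : V Q p} : v ∈ VM hM hodd hp ↔ pm v 1 ∈ M := Iff.rfl

theorem ρL_memVM (x : Q) {v : V Q p} (hv : v ∈ VM hM hodd hp) :
    ρ (Lg x) v ∈ VM hM hodd hp := by
  obtain ⟨n, hn, hn1⟩ := N_trans hodd x
  have h1 : x * pm v 1 = pm (ρ (Lg x) v) x := by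
    rw [mul_pm, Loop.mul_one']
  have h2 : pm (ρ (Lg x) v) x = n (pm (ρ (Lg x) v) 1) := by
    have hc := (pm_mem (ρ (Lg x) v)).2.1 n hn
    have := congrArg (fun g : Equiv.Perm Q => g 1) hc
    simp only [Equiv.Perm.mul_apply] at this
    rw [this, hn1]
  have h3 : pm (ρ (Lg x) v) 1 = (n⁻¹ * L x) (pm v 1) := by
    rw [Equiv.Perm.mul_apply, H361AL.L_apply, h1, h2]
    exact (n.symm_apply_apply _).symm
  rw [mem_VM, h3]
  refine hM.inn_mem _ (mul_mem (inv_mem (N_le_mlt hn)) (L_mem x)) ?_ _ hv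
  rw [Equiv.Perm.mul_apply, L_one', Equiv.Perm.inv_eq_iff_eq, hn1]

theorem D_memVM (x : Q) {v : V Q p} (hv : v ∈ VM hM hodd hp) : D x v ∈ VM hM hodd hp := by
  have h := ρL_memVM hM hodd hp x hv
  rw [ρ_L_apply] at h
  have := sub_mem h hv
  rwa [add_sub_cancel_left] at this

theorem D_BM (x : Q) {v w : V Q p} (hv : v ∈ VM hM hodd hp) (hw : w ∈ VM hM hodd hp) :
    ∃ v' ∈ VM hM hodd hp, ∃ w' ∈ VM hM hodd hp, D x (B v w) = B v' w' - B v w := by
  obtain ⟨n, hn, hn1⟩ := N_trans hodd x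
  set h : Gh Q := ⟨n⁻¹ * L x, mul_mem (inv_mem (mlt_le (N_le_mlt hn))) (mlt_le (L_mem x))⟩ with hh
  have hm : h.1 ∈ Mlt Q := mul_mem (inv_mem (N_le_mlt hn)) (L_mem x)
  have h1 : h.1 1 = 1 := by
    change (n⁻¹ * L x) 1 = 1
    rw [Equiv.Perm.mul_apply, L_one', Equiv.Perm.inv_eq_iff_eq, hn1]
  have hρ : (ρ h : AddMonoid.End (V Q p)) = ρ (Lg x) := by
    have e : h = ⟨n⁻¹, inv_mem (mlt_le (N_le_mlt hn))⟩ * Lg x := rfl
    rw [e, ρ_mul, ρ_N _ (inv_mem hn), one_mul]
  refine ⟨ρ h v, ?_, ρ h w, ?_, ?_⟩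
  · rw [hρ]; exact ρL_memVM hM hodd hp x hv
  · rw [hρ]; exact ρL_memVM hM hodd hp x hw
  have h2 : ρ h (B v w) = B (ρ h v) (ρ h w) := by
    have h3 := ρ_D (p := p) h hm h1 (pm v 1)
    have h4 : h.1 (pm v 1) = pm (ρ h v) 1 := by
      rw [pm_ρ]
      have h9 : (h.1)⁻¹ 1 = 1 := by rw [Equiv.Perm.inv_eq_iff_eq, h1]
      change h.1 (pm v 1) = h.1 (pm v ((h.1)⁻¹ 1))
      rw [h9]
    rw [h4] at h3
    have h5 : (ρ h * D (pm v 1) : AddMonoid.End (V Q p)) w =
        (D (pm (ρ h v) 1) * ρ h : AddMonoid.End (V Q p)) w := by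
      rw [h3]
    exact h5
  rw [← h2, hρ, ρ_L_apply]; abel

/-- a nontrivial invariant subgroup of `VM` on which the bracket vanishes -/
theorem exists_V2M (hne : ∃ v ∈ VM hM hodd hp, v ≠ 0) :
    ∃ V2 : AddSubgroup (V Q p), V2 ≤ VM hM hodd hp ∧ (∃ v ∈ V2, v ≠ 0) ∧
      (∀ x : Q, ∀ v ∈ V2, D x v ∈ V2) ∧ ∀ a ∈ V2, ∀ b ∈ V2, B a b = 0 := by
  by_cases hB : ∀ a ∈ VM hM hodd hp, ∀ b ∈ VM hM hodd hp, B a b = 0
  · exact ⟨VM hM hodd hp, le_rfl, hne, fun x v hv => D_memVM hM hodd hp x hv, hB⟩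
  · push Not at hB
    obtain ⟨a, ha, b, hb, hab⟩ := hB
    have hmem : ∀ v ∈ VM hM hodd hp, ∀ w ∈ VM hM hodd hp, B v w ∈ VM hM hodd hp :=
      fun v _ w hw => D_memVM hM hodd hp _ hw
    refine ⟨AddSubgroup.closure {c | ∃ v ∈ VM hM hodd hp, ∃ w ∈ VM hM hodd hp, c = B v w}, ?_,
      ⟨B a b, ?_, hab⟩, ?_, ?_⟩
    · rw [AddSubgroup.closure_le]
      rintro _ ⟨v, hv, w, hw, rfl⟩
      exact hmem v hv w hw
    · exact AddSubgroup.subset_closure ⟨a, ha, b, hb, rfl⟩
    · intro x v hv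
      induction hv using AddSubgroup.closure_induction with
      | mem c hc =>
        obtain ⟨v, hv, w, hw, rfl⟩ := hc
        obtain ⟨v', hv', w', hw', h⟩ := D_BM hM hodd hp x hv hw
        rw [h]
        exact sub_mem (AddSubgroup.subset_closure ⟨v', hv', w', hw', rfl⟩)
          (AddSubgroup.subset_closure ⟨v, hv, w, hw, rfl⟩)
      | zero => rw [map_zero]; exact zero_mem _
      | add c d _ _ hc hd => rw [map_add]; exact add_mem hc hd
      | neg c _ hc => rw [map_neg]; exact neg_mem hc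
    · intro c hc
      induction hc using AddSubgroup.closure_induction with
      | mem c hc =>
        obtain ⟨v, _, w, _, rfl⟩ := hc
        intro d hd
        induction hd using AddSubgroup.closure_induction with
        | mem d hd =>
          obtain ⟨v', _, w', _, rfl⟩ := hd
          exact B_metabelian hodd hp v w v' w'
        | zero => exact map_zero _
        | add c d _ _ hc hd =>
          have : B (B v w) (c + d) = B (B v w) c + B (B v w) d := map_add _ _ _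
          rw [this, hc, hd, add_zero]
        | neg c _ hc =>
          have : B (B v w) (-c) = - B (B v w) c := map_neg _ _
          rw [this, hc, neg_zero]
      | zero =>
        intro d _
        have h1 : B 0 d = - B d 0 := D_antisymm hodd _ _
        have h2 : B d 0 = 0 := map_zero _
        rw [h1, h2, neg_zero]
      | add c c' _ _ hc hc' =>
        intro d hd
        rw [B_add_left hodd, hc d hd, hc' d hd, add_zero]
      | neg c _ hc =>
        intro d hd
        have h1 : B (-c) d = - B d (-c) := D_antisymm hodd _ _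
        have h2 : B d (-c) = - B d c := map_neg _ _
        have h3 : B c d = - B d c := D_antisymm hodd _ _
        rw [h1, h2, ← h3, hc d hd, neg_zero]

/-- the main argument -/
theorem mainM (hne : ∃ v ∈ VM hM hodd hp, v ≠ 0) :
    ∃ v : V Q p, v ≠ 0 ∧ pm v 1 ∈ M ∧
      ∀ x y : Q, (x * pm v 1) * y = x * (pm v 1 * y) := by
  obtain ⟨V2, hle, ⟨v0, hv0, hv0n⟩, hV, hB⟩ := exists_V2M hM hodd hp hne
  set Pr : AddMonoid.End V2 → Prop := fun e => ∃ x, D2 V2 hV x = e with hPr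
  have h2 : ∀ e : AddMonoid.End V2, e + e = 0 → e = 0 := fun e he => D2_two V2 hp e he
  have hadd : ∀ X Y, Pr X → Pr Y → Pr (X + Y) := by
    rintro _ _ ⟨x, rfl⟩ ⟨y, rfl⟩
    exact D2_add V2 hV hB hodd hp x y
  have hbr : ∀ X Y, Pr X → Pr Y → Pr (br X Y) := by
    rintro _ _ ⟨x, rfl⟩ ⟨y, rfl⟩
    exact D2_br V2 hV hB hodd hp x y
  have h1 : ∀ X Z, Pr X → Pr Z → br X Z * X = 0 := by
    rintro _ _ ⟨x, rfl⟩ ⟨y, rfl⟩
    exact D2_key V2 hV hB hodd hp x y
  have hfin : Finite ↥(W Q p) := inferInstance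
  have hfinV : Finite (V Q p) := hfin
  have hfin2 : Finite V2 := inferInstance
  obtain ⟨v, hv, hvC⟩ := common_kernel (V := V2) (ι := Q × Q)
    (fun i => br (D2 V2 hV i.1) (D2 V2 hV i.2))
    (fun i j => br_comm Pr h2 hadd hbr h1 ⟨_, rfl⟩ ⟨_, rfl⟩ ⟨_, rfl⟩ ⟨_, rfl⟩)
    (fun i => br_br Pr h2 hadd hbr h1 ⟨_, rfl⟩ ⟨_, rfl⟩ ⟨_, rfl⟩)
    ⟨⟨v0, hv0⟩, fun h => hv0n (congrArg Subtype.val h)⟩
  have hcomm : ∀ x y : Q, D x (D y v.1) = D y (D x v.1) := by
    intro x y
    have h3 := congrArg Subtype.val (hvC (x, y))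
    change D x (D y v.1) - D y (D x v.1) = 0 at h3
    exact sub_eq_zero.1 h3
  refine ⟨v.1, fun h => hv (Subtype.ext h), hle v.2, ?_⟩
  intro x y
  have e1 : x * pm v.1 1 = pm (ρ (Lg x) v.1) x := by
    rw [mul_pm, Loop.mul_one']
  have e2 : pm v.1 1 * y = pm (ρ (Lg (iv y)) v.1) y := by
    rw [pm_mul, Loop.one_mul']
  rw [e1, e2, pm_mul, mul_pm]
  congr 2
  rw [ρ_L_apply, ρ_L_apply, ρ_L_apply, ρ_L_apply, map_add, map_add, D_iv hodd]
  have e3 : (-D y : AddMonoid.End (V Q p)) (D x v.1) = D x ((-D y : AddMonoid.End (V Q p)) v.1) := by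
    change -(D y (D x v.1)) = D x (-(D y v.1))
    rw [map_neg, hcomm]
  rw [e3]; abel

end

/-- the final statement -/
theorem final (hodd : Odd (Nat.card Q)) {M : Set Q} (hM : IsNormalSubloop M) {a : Q}
    (haM : a ∈ M) (ha : a ≠ 1) (hc : ∀ x : Q, P a * P x = P x * P a) :
    ∃ b ∈ M, b ≠ 1 ∧ (∀ x y : Q, (x * b) * y = x * (b * y)) ∧
      ∀ x : Q, P b * P x = P x * P b := by
  have hcN : ∀ n ∈ N Q, n * P a = P a * n := by
    intro n hn
    induction hn using Subgroup.closure_induction with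
    | mem x hx =>
      obtain ⟨y, rfl⟩ := hx
      simp only
      rw [← P_eq', hc]
    | one => rw [one_mul, mul_one]
    | mul x y _ _ hx hy => rw [mul_assoc, hy, ← mul_assoc, hx, mul_assoc]
    | inv x _ hx =>
      have : Commute x (P a) := hx
      exact this.inv_left
  have hP1 : P a ≠ 1 := by
    intro h
    rw [P_eq', mul_eq_one_iff_eq_inv, s_inv] at h
    exact ha (s_inj hodd h)
  have hord : orderOf (P a) ≠ 1 := by
    rw [Ne, orderOf_eq_one_iff]; exact hP1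
  set p := (orderOf (P a)).minFac with hpdef
  have hp : p.Prime := Nat.minFac_prime hord
  obtain ⟨k, hk⟩ := Nat.minFac_dvd (orderOf (P a))
  rw [← hpdef] at hk
  have hpos : 0 < orderOf (P a) := orderOf_pos _
  have hk0 : k ≠ 0 := by rintro rfl; omega
  set c := (P a) ^ k with hcdef
  have hc1 : c ≠ 1 := by
    intro h
    have := orderOf_dvd_of_pow_eq_one h
    rw [hk] at this
    have := Nat.le_of_dvd (by omega) this
    have h2 := hp.two_le
    nlinarith [Nat.pos_of_ne_zero hk0]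
  have hcp : c ^ p = 1 := by
    rw [hcdef, ← pow_mul, mul_comm, ← hk, pow_orderOf_eq_one]
  have hcN' : c ∈ N Q := by
    rw [hcdef, P_eq']; exact pow_mem (P_mem_N a) k
  have hcW : c ∈ W Q p := by
    refine ⟨hcN', ?_, hcp⟩
    intro n hn
    have : Commute n (P a) := hcN n hn
    exact this.pow_right k
  have hp2 : p ≠ 2 := by
    intro h2
    have hJ := W_J hodd hcW
    have hcc : c⁻¹ = c := by
      rw [h2, pow_two] at hcp
      exact inv_eq_of_mul_eq_one_left hcp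
    rw [hcc] at hJ
    have h3 : c * s 1 * c⁻¹ = s 1 := by
      rw [s_one]
      have : J * c = c * J := by
        calc J * c = J * c * (J * J) := by rw [J_mul_J, mul_one]
          _ = (J * c * J) * J := by group
          _ = c * J := by rw [hJ]
      rw [← this]; group
    rw [conj_s (mlt_le (N_le_mlt hcN'))] at h3
    exact hc1 (W_semireg hodd hcW (s_inj hodd h3))
  have hpo : Odd p := hp.odd_of_ne_two hp2
  let v : V Q p := Additive.ofMul ⟨c, hcW⟩
  have hv0 : v ≠ 0 := by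
    intro h
    exact hc1 (congrArg pm h)
  have hvM : v ∈ VM hM hodd hpo := by
    change c 1 ∈ M
    exact pow_memM (fun y hy => P_memM hM haM hy) k hM.one_mem
  obtain ⟨w, hw0, hwM, hw⟩ := mainM hM hodd hpo ⟨v, hvM, hv0⟩
  refine ⟨pm w 1, hwM, ?_, hw, ?_⟩
  · intro h
    have h3 : pm w 1 = pm (0 : V Q p) 1 := by rw [h]; rfl
    exact hw0 (pm_semireg hodd h3)
  · intro x
    have h1 : ∀ n ∈ N Q, n * pm w = pm w * n := (pm_mem w).2.1
    have h2 : Commute (P x) (pm w) := h1 _ (by rw [P_eq']; exact P_mem_N x)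
    have h3 : P (pm w 1) = pm w * pm w := by rw [P_eq', s_pm hodd]
    rw [h3]
    exact ((h2.mul_right h2).symm)

end Pool.Agent.H687R3.ALG
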