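import Pool.Agent.H361R3.AL.Basic

/-!
Automorphic loops in which squaring is injective: every normal subloop isomorphic to a cyclic
group of prime order lies in the middle nucleus.
-/

set_option autoImplicit false

namespace Pool.Agent.H687R3.ALP

open H361AL

variable {Q : Type*} [Loop Q] [Automorphic Q] {K : Type*} [Field K]

omit [Loop Q] [Automorphic Q] in
theorem papp (g : Equiv.Perm Q) (y : Q) : g (g⁻¹ y) = y := g.apply_symm_apply y

/-- a copy of the additive group of the field `K` on which the inner mappings act by scalars -/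
structure Cyc (e : K → Q) : Prop where
  inj : Function.Injective e
  add : ∀ i j, e (i + j) = e i * e j
  scal : ∀ h ∈ Mlt Q, h 1 = 1 → ∃ c : K, ∀ i, h (e i) = e (c * i)

variable {e : K → Q} (he : Cyc e)
include he

omit [Automorphic Q] in
theorem e_zero : e 0 = 1 := by
  apply (bij_left (e 0)).1
  change e 0 * e 0 = e 0 * 1
  rw [← he.add, add_zero, Loop.mul_one']

omit [Automorphic Q] in
theorem inner_scal {h : Equiv.Perm Q} (hm : h ∈ Mlt Q) (h1 : h 1 = 1) :
    ∃ c : K, c ≠ 0 ∧ ∀ i, h (e i) = e (c * i) := by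
  obtain ⟨c, hc⟩ := he.scal h hm h1
  refine ⟨c, ?_, hc⟩
  rintro rfl
  have h3 : e 0 = e 1 := h.injective (by rw [hc, hc, zero_mul, zero_mul])
  exact zero_ne_one (he.inj h3)

omit [Automorphic Q] he in
theorem Lcancel {x y z : Q} (h : x * y = x * z) : y = z := (bij_left x).1 h
omit [Automorphic Q] he in
theorem Rcancel {x y z : Q} (h : y * x = z * x) : y = z := (bij_right x).1 h

theorem F1 (z : Q) (i j : K) : (z * e j) * e i = z * e (j + i) := by
  have hμ : ∀ i : K, ∃ c : K, c ≠ 0 ∧ ∀ j, (z * e j) * e i = z * e (c * j + i) := by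
    intro i
    set h : Equiv.Perm Q := (R (e i))⁻¹ * ((L z)⁻¹ * (R (e i) * L z)) with hh
    have hm : h ∈ Mlt Q := mul_mem (inv_mem (R_mem _)) (mul_mem (inv_mem (L_mem _))
      (mul_mem (R_mem _) (L_mem _)))
    have h0 : ∀ y, L z (R (e i) (h y)) = R (e i) (L z y) := by
      intro y
      rw [hh]
      simp only [Equiv.Perm.mul_apply, papp]
    have h1 : h 1 = 1 := by
      have h3 := h0 1
      have h4 : z * (h 1 * e i) = (z * 1) * e i := h3
      rw [Loop.mul_one'] at h4
      have h5 : h 1 * e i = 1 * e i := by rw [Lcancel h4, Loop.one_mul']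
      exact Rcancel h5
    obtain ⟨c, hc, hc2⟩ := inner_scal he hm h1
    refine ⟨c, hc, fun j => ?_⟩
    have h3 : z * (h (e j) * e i) = (z * e j) * e i := h0 (e j)
    rw [← h3, hc2, ← he.add]
  choose μ hμ0 hμ using hμ
  by_cases hi : i = 0
  · rw [hi, e_zero he, Loop.mul_one', add_zero]
  have key : ∀ j, μ j * ((μ i - 1) * i) + μ (i + i) * j + (i + i) = μ i * (μ i * j + i) + i := by
    intro j
    set g : Equiv.Perm Q := (R (e (i + i)))⁻¹ * (R (e i) * R (e i)) with hg
    have gm : g ∈ Mlt Q := mul_mem (inv_mem (R_mem _)) (mul_mem (R_mem _) (R_mem _))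
    have g0 : ∀ y, g y * e (i + i) = (y * e i) * e i := by
      intro y
      change R (e (i + i)) (g y) = R (e i) (R (e i) y)
      rw [hg]
      simp only [Equiv.Perm.mul_apply, papp]
    have g1 : g 1 = 1 := by
      apply Rcancel (x := e (i + i))
      rw [g0, Loop.one_mul', Loop.one_mul', he.add]
    have g2 : g (e j) = e j := by
      apply Rcancel (x := e (i + i))
      rw [g0, ← he.add, ← he.add, ← he.add, add_assoc]
    set τ := (μ (i + i))⁻¹ * ((μ i - 1) * i) with hτ
    have g3 : g z = z * e τ := by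
      apply Rcancel (x := e (i + i))
      rw [g0, hμ, hμ]
      have : (z * e i) = z * e (μ i * 0 + i) := by rw [mul_zero, zero_add]
      congr 2
      rw [hτ, ← mul_assoc, mul_inv_cancel₀ (hμ0 _)]
      ring
    have g4 : g (z * e j) = z * e (μ j * τ + j) := by
      rw [aut gm g1, g3, g2, hμ]
    have g5 := g0 (z * e j)
    rw [g4, hμ, hμ, hμ] at g5
    have g6 := he.inj (Lcancel g5)
    rw [← g6, hτ, mul_add, ← mul_assoc (μ (i + i)) (μ j), mul_comm (μ (i + i)) (μ j), mul_assoc (μ j),
      ← mul_assoc (μ (i + i)), mul_inv_cancel₀ (hμ0 _), one_mul]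
  have hμ1 : μ i = 1 := by
    by_contra hne
    have hne' : μ i - 1 ≠ 0 := sub_ne_zero.2 hne
    have hd : (μ i - 1) * i ≠ 0 := mul_ne_zero hne' hi
    by_cases hk : μ i ^ 2 - μ (i + i) = 0
    · have h2 := key i
      have h3 : (μ i - 1) * ((μ i - 1) * i) = 0 := by linear_combination h2 + i * hk
      rcases mul_eq_zero.1 h3 with h | h
      · exact hne' h
      · exact hd h
    · set j := -((μ i - 1) * i) / (μ i ^ 2 - μ (i + i)) with hj
      have h2 := key j
      have h3 : (μ i ^ 2 - μ (i + i)) * j = -((μ i - 1) * i) := by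
        rw [hj, div_eq_mul_inv, mul_comm, mul_assoc, inv_mul_cancel₀ hk, mul_one]
      have h4 : μ j * ((μ i - 1) * i) = 0 := by linear_combination h2 + h3
      rcases mul_eq_zero.1 h4 with h | h
      · exact hμ0 _ h
      · exact hd h
  rw [hμ, hμ1, one_mul]

theorem main (hsq : ∀ x y : Q, x * x = y * y → x = y) (i : K) (x y : Q) :
    (x * e i) * y = x * (e i * y) := by
  -- scalars of `T`
  have hT : ∀ x : Q, ∃ c : K, c ≠ 0 ∧ ∀ i, x * e i = e (c * i) * x := by
    intro x
    obtain ⟨c, hc, hc2⟩ := inner_scal he (T_mem x) (T_one x)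
    refine ⟨c, hc, fun i => ?_⟩
    rw [← hc2]
    change L x (e i) = R x (((R x)⁻¹ * L x) (e i))
    simp only [Equiv.Perm.mul_apply, papp]
  choose t ht0 ht using hT
  have ht' : ∀ (x : Q) i, e i * x = x * e ((t x)⁻¹ * i) := by
    intro x i
    rw [ht, ← mul_assoc, mul_inv_cancel₀ (ht0 x), one_mul]
  -- scalars of `L_{x,y}`
  have hβ : ∀ x y : Q, ∃ c : K, c ≠ 0 ∧ ∀ i, x * (y * e i) = (x * y) * e (c * i) := by
    intro x y
    set h : Equiv.Perm Q := (L (x * y))⁻¹ * (L x * L y) with hh
    have hm : h ∈ Mlt Q := mul_mem (inv_mem (L_mem _)) (mul_mem (L_mem _) (L_mem _))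
    have h0 : ∀ z, (x * y) * h z = x * (y * z) := by
      intro z
      change L (x * y) (h z) = L x (L y z)
      rw [hh]
      simp only [Equiv.Perm.mul_apply, papp]
    have h1 : h 1 = 1 := by
      apply Lcancel (x := x * y)
      rw [h0, Loop.mul_one', Loop.mul_one']
    obtain ⟨c, hc, hc2⟩ := inner_scal he hm h1
    exact ⟨c, hc, fun i => by rw [← hc2, h0]⟩
  choose β hβ0 hβ using hβ
  -- scalars on the right
  have hα : ∀ x y : Q, ∃ c : K, ∀ i, (x * e i) * y = (x * y) * e (c * i) := by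
    intro x y
    set h : Equiv.Perm Q := (R (x * y))⁻¹ * (R y * R x) with hh
    have hm : h ∈ Mlt Q := mul_mem (inv_mem (R_mem _)) (mul_mem (R_mem _) (R_mem _))
    have h0 : ∀ z, h z * (x * y) = (z * x) * y := by
      intro z
      change R (x * y) (h z) = R y (R x z)
      rw [hh]
      simp only [Equiv.Perm.mul_apply, papp]
    have h1 : h 1 = 1 := by
      apply Rcancel (x := x * y)
      rw [h0, Loop.one_mul', Loop.one_mul']
    obtain ⟨c, hc, hc2⟩ := inner_scal he hm h1
    refine ⟨(t (x * y))⁻¹ * (c * t x), fun i => ?_⟩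
    rw [ht x, ← h0, hc2, ht' (x * y)]
    congr 2; ring
  choose α hα using hα
  -- invariance of β under inner mappings
  have hβinv : ∀ h ∈ Mlt Q, h 1 = 1 → ∀ x y, β (h x) (h y) = β x y := by
    intro h hm h1 x y
    obtain ⟨c, hc, hc2⟩ := inner_scal he hm h1
    have h2 := congrArg h (hβ x y 1)
    rw [aut hm h1, aut hm h1, aut hm h1, aut hm h1, hc2, hc2, hβ] at h2
    have h3 := he.inj (Lcancel h2)
    rw [mul_one, mul_one, mul_comm] at h3
    exact mul_left_cancel₀ hc h3
  have hαβ : ∀ x y, α x y * t y = β y x := by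
    intro x y
    set T : Equiv.Perm Q := (R y)⁻¹ * L y with hTdef
    have hTm : T ∈ Mlt Q := T_mem y
    have hT1 : T 1 = 1 := T_one y
    have hT0 : ∀ z, T z * y = y * z := by
      intro z
      change R y (T z) = L y z
      rw [hTdef]
      simp only [Equiv.Perm.mul_apply, papp]
    have hTe : ∀ i, T (e i) = e (t y * i) := by
      intro i
      apply Rcancel (x := y)
      rw [hT0, ht]
    have hTy : T y = y := by
      apply Rcancel (x := y)
      rw [hT0]
    obtain ⟨z, rfl⟩ : ∃ z, T z = x := ⟨T⁻¹ x, by simp⟩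
    have h1 := hT0 (z * e 1)
    rw [aut hTm hT1, hTe, hα, hβ, hT0] at h1
    have h2 := he.inj (Lcancel h1)
    rw [mul_one, mul_one] at h2
    rw [h2]
    have h3 := hβinv T hTm hT1 y z
    rw [hTy] at h3
    exact h3.symm
  -- F1'
  have F1' : ∀ (i : K) (y : Q) (j : K), e i * (y * e j) = y * e ((t y)⁻¹ * i + j) := by
    intro i y j
    set h : Equiv.Perm Q := (R (e i))⁻¹ * L (e i) with hh
    have hm : h ∈ Mlt Q := T_mem _
    have h1 : h 1 = 1 := T_one _
    have h0 : ∀ z, h z * e i = e i * z := by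
      intro z
      change R (e i) (h z) = L (e i) z
      rw [hh]
      simp only [Equiv.Perm.mul_apply, papp]
    have h2 : h (e j) = e j := by
      apply Rcancel (x := e i)
      rw [h0, ← he.add, ← he.add, add_comm]
    have h3 : h y = y * e ((t y)⁻¹ * i - i) := by
      apply Rcancel (x := e i)
      rw [h0, F1 he, ht' y, sub_add_cancel]
    rw [← h0, aut hm h1, h2, h3, F1 he, F1 he]
    congr 2; ring
  -- the general product
  have F2 : ∀ (x y : Q) (i j : K),
      (x * e i) * (y * e j) = (x * y) * e (α x y * i + β x y * j) := by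
    intro x y i j
    set g : Equiv.Perm Q := (L (x * e i))⁻¹ * (L x * L (e i)) with hg
    have gm : g ∈ Mlt Q := mul_mem (inv_mem (L_mem _)) (mul_mem (L_mem _) (L_mem _))
    have g0 : ∀ z, (x * e i) * g z = x * (e i * z) := by
      intro z
      change L (x * e i) (g z) = L x (L (e i) z)
      rw [hg]
      simp only [Equiv.Perm.mul_apply, papp]
    have g1 : g 1 = 1 := by
      apply Lcancel (x := x * e i)
      rw [g0, Loop.mul_one', Loop.mul_one']
    have g2 : ∀ k, g (e k) = e k := by
      intro k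
      apply Lcancel (x := x * e i)
      rw [g0, F1 he, ← he.add, add_comm]
    -- `(x * e i) * (y * e k) = (x * y) * e (α i + β' k)`
    have g3 : ∀ k, (x * e i) * (y * e k) = (x * y) * e (α x y * i + β (x * e i) y * k) := by
      intro k
      rw [hβ, hα, F1 he]
    set ρ := (β (x * e i) y)⁻¹ * (β x y * ((t y)⁻¹ * i) - α x y * i) with hρ
    have hρ' : β (x * e i) y * ρ = β x y * ((t y)⁻¹ * i) - α x y * i := by
      rw [hρ, ← mul_assoc, mul_inv_cancel₀ (hβ0 _ _), one_mul]
    have g4 : g y = y * e ρ := by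
      apply Lcancel (x := x * e i)
      rw [g0, g3, ht' y, hβ, hρ']
      congr 2
      ring
    have g5 : ∀ k, g (y * e k) = y * e (ρ + k) := by
      intro k
      rw [aut gm g1, g4, g2, F1 he]
    have g6 := g0 (y * e 1)
    rw [g5, g3, F1', hβ] at g6
    have g7 := he.inj (Lcancel g6)
    have g8 : β (x * e i) y = β x y := by
      have : β (x * e i) y * ρ = β x y * ((t y)⁻¹ * i) - α x y * i := by
        rw [hρ, ← mul_assoc, mul_inv_cancel₀ (hβ0 _ _), one_mul]
      linear_combination g7 - this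
    rw [g3, g8]
  -- derivations
  have der : ∀ h ∈ Mlt Q, h 1 = 1 → ∀ τ : Q → K, (∀ z, h z = z * e (τ z)) →
      ∀ z w, τ (z * w) = α z w * τ z + β z w * τ w := by
    intro h hm h1 τ hτ z w
    have h2 := aut hm h1 z w
    rw [hτ, hτ, hτ, F2] at h2
    exact he.inj (Lcancel h2)
  have hα1 : ∀ x y, α x y = β y x * (t y)⁻¹ := by
    intro x y
    rw [← hαβ, mul_assoc, mul_inv_cancel₀ (ht0 y), mul_one]
  -- `t` of the inverse
  have hβiv : ∀ z, β (iv z) z = β z (iv z) := by
    intro z
    have h1 := congrArg (fun g : Equiv.Perm Q => g (e 1)) (comm_L_L z)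
    have h2 : iv z * (z * e 1) = z * (iv z * e 1) := h1
    rw [hβ, hβ, iv_mul, mul_iv] at h2
    have h3 := he.inj (Lcancel h2)
    rwa [mul_one, mul_one] at h3
  have der0 : ∀ h ∈ Mlt Q, h 1 = 1 → ∀ τ : Q → K, (∀ z, h z = z * e (τ z)) →
      ∀ z, (t (iv z))⁻¹ * τ z + τ (iv z) = 0 := by
    intro h hm h1 τ hτ z
    have h2 := der h hm h1 τ hτ z (iv z)
    have h3 : τ 1 = 0 := by
      have h4 := hτ 1
      rw [h1, Loop.one_mul'] at h4
      have h5 : e 0 = e (τ 1) := (e_zero he).trans h4
      exact (he.inj h5).symm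
    rw [mul_iv, h3, hα1, hβiv] at h2
    have h5 : β z (iv z) * ((t (iv z))⁻¹ * τ z + τ (iv z)) = 0 := by linear_combination -h2
    exact (mul_eq_zero.1 h5).resolve_left (hβ0 _ _)
  have htiv : ∀ z, (t (iv z))⁻¹ = t z := by
    intro z
    have h1 := der0 ((R (e 1))⁻¹ * L (e 1)) (T_mem _) (T_one _) (fun z => (t z)⁻¹ - 1) (by
      intro y
      apply Rcancel (x := e 1)
      have h0 : ((R (e 1))⁻¹ * L (e 1)) y * e 1 = e 1 * y := by
        change R (e 1) (((R (e 1))⁻¹ * L (e 1)) y) = L (e 1) y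
        simp only [Equiv.Perm.mul_apply, papp]
      rw [h0, F1 he, ht' y, sub_add_cancel, mul_one]) z
    have h2 : (t (iv z))⁻¹ * (t z)⁻¹ = 1 := by linear_combination h1
    have h3 : (t (iv z))⁻¹ * (t z)⁻¹ * t z = 1 * t z := congrArg (fun c => c * t z) h2
    rwa [mul_assoc, inv_mul_cancel₀ (ht0 z), mul_one, one_mul] at h3
  -- the key relation
  set M : Q → Q → K := fun x y => β y x * (β x y)⁻¹ with hM
  have hM0 : ∀ x y, M x y ≠ 0 := fun x y => mul_ne_zero (hβ0 _ _) (inv_ne_zero (hβ0 _ _))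
  have hMsymm : ∀ x y, M y x = (M x y)⁻¹ := by
    intro x y
    simp only [hM, mul_inv, inv_inv]
    rw [mul_comm]
  have hMiv : ∀ x z, M x (iv z) = 1 + (1 - M x z) * (t z)⁻¹ := by
    intro x z
    set g : Equiv.Perm Q := (L (x * e 1))⁻¹ * (L x * L (e 1)) with hg
    have gm : g ∈ Mlt Q := mul_mem (inv_mem (L_mem _)) (mul_mem (L_mem _) (L_mem _))
    have g0 : ∀ z, (x * e 1) * g z = x * (e 1 * z) := by
      intro z
      change L (x * e 1) (g z) = L x (L (e 1) z)
      rw [hg]
      simp only [Equiv.Perm.mul_apply, papp]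
    have g1 : g 1 = 1 := by
      apply Lcancel (x := x * e 1)
      rw [g0, Loop.mul_one', Loop.mul_one']
    have h1 := der0 g gm g1 (fun y => (t y)⁻¹ * (1 - M x y)) (by
      intro y
      apply Lcancel (x := x * e 1)
      rw [g0, F2, ht' y, hβ, hα1]
      congr 2
      simp only [hM]
      have hb := hβ0 x y
      field_simp
      ring) z
    rw [htiv] at h1
    have htz := ht0 z
    have h2 : t z * (t z)⁻¹ = 1 := mul_inv_cancel₀ htz
    have h3 : (1 - M x z) + t z * (1 - M x (iv z)) = 0 := by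
      linear_combination h1 - (1 - M x z) * h2
    have h4 : t z * (M x (iv z) - (1 + (1 - M x z) * (t z)⁻¹)) = 0 := by
      linear_combination -h3 - (1 - M x z) * h2
    exact sub_eq_zero.1 ((mul_eq_zero.1 h4).resolve_left htz)
  have ht1 : ∀ z, t z + 1 ≠ 0 := by
    intro z hz
    have h1 := F2 z z 1 1
    rw [hα1] at h1
    have h2 : (t z)⁻¹ = -1 := by
      have h3 : t z = -1 := eq_neg_of_add_eq_zero_left hz
      rw [h3, inv_neg, inv_one]
    rw [h2] at h1
    have h3 : β z z * -1 * 1 + β z z * 1 = 0 := by ring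
    rw [h3, e_zero he, Loop.mul_one'] at h1
    have h4 := hsq _ _ h1
    have h5 : z * e 1 = z * e 0 := by
      rw [e_zero he, Loop.mul_one']; exact h4
    exact one_ne_zero (he.inj (Lcancel h5))
  have hMone : ∀ x z, M x z = 1 := by
    intro x z
    by_contra hm
    set m := M x z with hmdef
    have hm0 : m ≠ 0 := hM0 x z
    -- way A
    have a1 : M x (iv z) = 1 + (1 - m) * (t z)⁻¹ := hMiv x z
    have a2 : M (iv z) (iv x) = 1 + (1 - (M x (iv z))⁻¹) * (t x)⁻¹ := by
      rw [← hMsymm]; exact hMiv (iv z) x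
    have a3 : M (iv x) (iv z) = (M (iv z) (iv x))⁻¹ := hMsymm _ _
    -- way B
    have b1 : M z (iv x) = 1 + (1 - m⁻¹) * (t x)⁻¹ := by
      rw [hmdef, ← hMsymm]; exact hMiv z x
    have b2 : M (iv x) (iv z) = 1 + (1 - (M z (iv x))⁻¹) * (t z)⁻¹ := by
      rw [← hMsymm]; exact hMiv (iv x) z
    have hu := hM0 x (iv z)
    have hv := hM0 z (iv x)
    have hw := hM0 (iv z) (iv x)
    have e1 := a3.symm.trans b2
    generalize M x (iv z) = u at *
    generalize M z (iv x) = v at *
    generalize M (iv z) (iv x) = w at *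
    have htx := ht0 x
    have htz := ht0 z
    have hx1 := ht1 x
    have hz1 := ht1 z
    generalize t x = a at *
    generalize t z = b at *
    have u1 : u * b = b + 1 - m := by rw [a1]; field_simp; ring
    have v1 : v * (a * m) = a * m + m - 1 := by rw [b1]; field_simp; ring
    have w1 : w * (a * u) = a * u + u - 1 := by rw [a2]; field_simp; ring
    have x1 : v * b = w * (b * v + v - 1) := by
      have h1 : w⁻¹ * w = 1 := inv_mul_cancel₀ hw
      have h2 : v⁻¹ * v = 1 := inv_mul_cancel₀ hv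
      have h3 : b⁻¹ * b = 1 := inv_mul_cancel₀ htz
      linear_combination (w * v * b) * e1 - v * b * h1 + (1 - v⁻¹) * w * v * h3 - w * h2
    have W2 : w * a * (b + 1 - m) = (a + 1) * (b + 1 - m) - b := by
      linear_combination b * w1 - w * a * u1 + (a + 1) * u1
    have X2 : (a * m + m - 1) * b = w * ((b + 1) * (a * m + m - 1) - a * m) := by
      linear_combination a * m * x1 - b * v1 + w * (b + 1) * v1
    have fin : (m - 1) ^ 2 * ((a + 1) * (b + 1)) = 0 := by
      linear_combination a * (b + 1 - m) * X2 + ((b + 1) * (a * m + m - 1) - a * m) * W2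
    rcases mul_eq_zero.1 fin with h | h
    · exact hm (sub_eq_zero.1 (pow_eq_zero_iff (two_ne_zero)|>.1 h))
    · rcases mul_eq_zero.1 h with h | h
      · exact hx1 h
      · exact hz1 h
  rw [hα, ht' y, hβ, hα1]
  congr 2
  have h1 := hMone x y
  simp only [hM] at h1
  have h2 : β y x = β x y := (mul_inv_eq_one₀ (hβ0 x y)).1 h1
  rw [h2]; ring

end Pool.Agent.H687R3.ALP
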